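import Pool.Agent.Lib.MP_2eed13_lc.LCA.Base

/-!
# Module SUM: the interpolation identity
-/

set_option autoImplicit false

namespace Pool.Agent.Lib.MP_2eed13_lc.LCA.H78

open Finset Polynomial

lemma dig_two_lt (u v : ℕ) : dig 2 u v = 0 ∨ dig 2 u v = 1 := by
  unfold dig
  omega

lemma eq_of_dig {N u w : ℕ} (hu : u < 2 ^ N) (hw : w < 2 ^ N)
    (h : ∀ v < N, dig 2 u v = dig 2 w v) : u = w := by
  apply Nat.eq_of_testBit_eq
  intro i
  rcases Nat.lt_or_ge i N with hi | hi
  · have := h i hi
    unfold dig at this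
    rw [Nat.testBit_eq_decide_div_mod_eq, Nat.testBit_eq_decide_div_mod_eq, this]
  · have h2 : 2 ^ N ≤ 2 ^ i := Nat.pow_le_pow_right (by norm_num) hi
    rw [Nat.testBit_lt_two_pow (lt_of_lt_of_le hu h2), Nat.testBit_lt_two_pow (lt_of_lt_of_le hw h2)]

/-- the sum of a polynomial of small degree over the prime field -/
lemma sum_eval_eq_zero {p : ℕ} [Fact p.Prime] (F : (ZMod p)[X]) (hF : F.natDegree < p - 1) :
    ∑ x : ZMod p, F.eval x = 0 := by
  have h1 : ∀ x : ZMod p, F.eval x = ∑ i ∈ range (p - 1), F.coeff i * x ^ i := fun x =>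
    Polynomial.eval_eq_sum_range' hF x
  rw [Finset.sum_congr rfl fun x _ => h1 x, Finset.sum_comm]
  apply Finset.sum_eq_zero
  intro i hi
  rw [← Finset.mul_sum, FiniteField.sum_pow_lt_card_sub_one (K := ZMod p) i
    (by rw [ZMod.card]; exact mem_range.1 hi), mul_zero]

lemma sum_zmod {p : ℕ} [Fact p.Prime] (f : ZMod p → ZMod p) :
    ∑ x : ZMod p, f x = ∑ a ∈ range (p - 1), f ((a + 1 : ℕ) : ZMod p) + f 0 := by
  have hp : p.Prime := Fact.out
  have h1 : ∑ x : ZMod p, f x = ∑ a ∈ range p, f (a : ZMod p) := by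
    apply Finset.sum_nbij' (fun x : ZMod p => x.val) (fun a : ℕ => (a : ZMod p))
    · intro x _
      exact mem_coe.2 (mem_range.2 (ZMod.val_lt x))
    · intro a _
      exact mem_coe.2 (mem_univ _)
    · intro x _
      exact ZMod.natCast_zmod_val x
    · intro a ha
      exact ZMod.val_cast_of_lt (mem_range.1 ha)
    · intro x _
      rw [ZMod.natCast_zmod_val]
  rw [h1]
  obtain ⟨q, rfl⟩ : ∃ q, p = q + 1 := ⟨p - 1, by have := hp.pos; omega⟩
  rw [Finset.sum_range_succ', Nat.add_sub_cancel]
  simp

theorem sum : SumStatement := by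
  intro p b hp hb G w k τ hw
  have : Fact p.Prime := ⟨hp⟩
  set L : ℕ → (ZMod p)[X] := fun v => C (τ v) * X + C ((dig 2 w v : ℕ) : ZMod p) with hL
  set F : (ZMod p)[X] := ∑ u ∈ range (2 ^ (3 * b)), C ((dig 2 (G u) k : ℕ) : ZMod p) *
    ∏ v ∈ range (3 * b), (if dig 2 u v = 1 then L v else 1 - L v) with hF
  have hdegL : ∀ v, (L v).natDegree ≤ 1 := fun v => natDegree_linear_le
  have hdeg : F.natDegree ≤ 3 * b := by
    apply natDegree_sum_le_of_forall_le
    intro u _
    refine (natDegree_C_mul_le _ _).trans ((natDegree_prod_le _ _).trans ?_)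
    calc ∑ v ∈ range (3 * b), (if dig 2 u v = 1 then L v else 1 - L v).natDegree
        ≤ ∑ v ∈ range (3 * b), 1 := by
          apply Finset.sum_le_sum
          intro v _
          split_ifs
          · exact hdegL v
          · refine (natDegree_sub_le _ _).trans (max_le ?_ (hdegL v))
            rw [natDegree_one]
            exact Nat.zero_le _
      _ = 3 * b := by simp
  have hev : ∀ a : ZMod p, F.eval a =
      extA p b G (fun v => a * τ v + (dig 2 w v : ZMod p)) k := by
    intro a
    rw [hF, eval_finsetSum, extA]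
    apply Finset.sum_congr rfl
    intro u _
    rw [eval_mul, eval_C, eval_prod]
    congr 1
    apply Finset.prod_congr rfl
    intro v _
    have hLe : (L v).eval a = a * τ v + (dig 2 w v : ZMod p) := by
      rw [hL]
      simp only [eval_add, eval_mul, eval_C, eval_X]
      ring
    split_ifs
    · exact hLe
    · rw [eval_sub, eval_one, hLe]
  have h0 : F.eval 0 = (dig 2 (G w) k : ZMod p) := by
    rw [hev, extA, Finset.sum_eq_single w]
    · have : ∏ v ∈ range (3 * b), (if dig 2 w v = 1 then
          (0 * τ v + (dig 2 w v : ZMod p)) else 1 - (0 * τ v + (dig 2 w v : ZMod p))) = 1 := by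
        apply Finset.prod_eq_one
        intro v _
        rcases dig_two_lt w v with h | h <;> simp [h]
      rw [this, mul_one]
    · intro u hu huw
      have hex : ∃ v < 3 * b, dig 2 u v ≠ dig 2 w v := by
        by_contra h
        push Not at h
        exact huw (eq_of_dig (mem_range.1 hu) hw h)
      obtain ⟨v, hv, hne⟩ := hex
      rw [Finset.prod_eq_zero (mem_range.2 hv), mul_zero]
      rcases dig_two_lt u v with h | h <;> rcases dig_two_lt w v with h' | h' <;>
        simp [h, h'] at hne ⊢
    · intro h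
      exact absurd (mem_range.2 hw) h
  have hsum := sum_eval_eq_zero F (by omega)
  rw [sum_zmod, h0] at hsum
  rw [← eq_neg_iff_add_eq_zero] at hsum
  rw [← hsum]
  apply Finset.sum_congr rfl
  intro a _
  rw [hev]

end Pool.Agent.Lib.MP_2eed13_lc.LCA.H78
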